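import Pool.Agent.U189.FV.Top
import Pool.Agent.U189.FV.Efn

/-!
# Nef divisors on the modifications of arbitrary varieties with a finite morphism to a toric variety and
# on their flops: base point freeness with one multiple, and without a multiple

**The varieties.** Let `Y` be any normal projective variety of dimension `n ≥ 1` over `ℂ` with the
function field `K`, and `x 0, ..., x n` sections of an ample line bundle `H` on `Y` without common zeros.
They define a finite morphism from `Y` to the projective `n`-space. `X` is the normalization in `K` of the
toric modification of the projective space which is given by `fan`: a modification of `Y` with a finite
morphism to a toric variety, and a toroidal modification of `Y` if the divisors `x k = 0` have normal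
crossings (see `Pool/Agent/U189/FV/Top.lean`, where the definitions `affine`, `minimalOrder`,
`multiplicities`, `InCone`, `IsFan` and `coefficient` are explained). `D 1, ..., D p` are the pullbacks to
`X` of toric `ℚ`-Cartier divisors; the coefficients of their pullbacks at the prime divisors `P` over `X` are
the `δ i P`.

**The theorem.** (1) Let `X'` be any projective variety which is isomorphic to `X` in codimension one,
such that the strict transforms of the `D i` are `ℚ`-Cartier and some combination of them is ample
(`IsSmallModification`, with the coefficients `δ'`). There is ONE number `k ≥ 1` such that for all these `X'`
and for all integral combinations `L = ∑ i, ν i * D i` which are nef on `X'` the linear system `|k L|` has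
no base points on `X'`.
(2) On `X` itself (which need not be projective, only complete) suppose that the cones of `fan` are of
full dimension (`IsFull`). Then the nef real combinations of the `D i` are exactly those which are given
by convex functions (`IsConvex`); they form the cone which is spanned by finitely many base point free
integral combinations; and every nef integral combination `L` which is the pullback of a toric divisor
with integral local equations (`IsCartier`) is base point free itself: no multiple is needed. A nef class
(`IsNefUpTo`) is a limit of base point free classes after the addition of `t A` with `t → 0` and some
divisor `A`; the usual nef classes are of this kind.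

**Manifolds with trivial canonical class.** Let `V` be a normal projective variety with `K_V`
`ℚ`-linearly equivalent to a rational multiple of `H`, and `x k` sections of `H` which define multiples of
divisors with normal crossings. Let `Y` be an abelian cover of `V` which is branched along the divisors
`x k = 0`, with trivial `K_Y` (for instance the double covers of any Fano variety `V` which are branched
along members of `|- 2 K_V|` with at most `n + 1` components in multiples of `H`), and `X` a crepant
toroidal resolution of `Y`. If the Picard number of `V` is `1`, `n ≥ 3`, `V` is smooth and only strata which
are irreducible are modified, then the `D i` can be chosen as a basis of `N¹(X)` (a theorem of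
Lefschetz type), and the flops `X'` of `X` have trivial canonical class as well. So the theorem gives the
conclusion of Question Q1 for `X` and for all its flops, with one `k` for all nef divisors on all flops; if
the divisors `L` in (2) are considered then `k = 1`. These remarks are not used and not proved here.

**Relation to the other results.** `MP_5ee2d0_ag.UniformFreeness` is (1) for abelian covers `Y` of
products of projective spaces, one smooth hypersurface in each factor. Here `Y` is arbitrary, for
instance a cover of an arbitrary Fano variety `V` which is branched along divisors with normal
crossings. (2) is new also for these: it determines the nef cones, and gives base point freeness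
without a multiple.

**Proof.** New is the finite generation of the Cox ring of the `D i` (`Pool/Agent/U189/FV`): the sections
are integral over the sections on the toric variety, and they are contained in a finitely generated
module over the algebra of the monomials in a cone; every `Y` with a finite morphism to the
projective space is allowed. (1) is deduced from it by the library of `helper660` (`Pool/Agent/U660/MD`).
For (2): at the prime divisors over `X` with given multiplicities `v` (extensions of monomial valuations,
`Pool/Agent/U189/FV/Cvx.lean`) the sections are compared with the monomials in the module above; this
gives the convexity of base point free combinations, and then of nef ones, since the cone of the nef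
classes is spanned by base point free ones. Conversely the monomials in the `x k` of the local equations
are sections of a convex combination without common zeros (`Pool/Agent/U189/FV/Eff.lean`).
-/

set_option autoImplicit false

open FF MvPolynomial Pool.Agent.W602.GT

namespace Pool.Agent.Results.MP_5ee2d0_ag.FiniteCoverFreeness

open Pool.Agent.Results.MP_89a3f8_ag.TerminationOfFlips
  (IsSection BasePointFree Semiample IsSmallModification)
open Pool.Agent.U660.MD
open Pool.Agent.U189.ND (affine minimalOrder InCone)
open Pool.Agent.U189.FV

/-- **Nef divisors are base point free.** Let `K` be the function field of
a normal projective variety `Y` of dimension `n`, `x 0, ..., x n` sections of an ample line bundle without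
common zeros, `X` the normalization in `K` of the toric modification of the projective `n`-space which is
given by `fan`, and `D i`, `i < p`, the pullbacks of toric `ℚ`-Cartier divisors with the degrees `β i` and the
coefficients `c i`.
(1) There is `k ≥ 1` such that for every small modification of `X` (with the coefficients `δ'`) and every
integral combination `ν` which is nef on it the combination `k ν` is base point free on it.
(2) If the cones of `fan` are of full dimension: a real combination is nef on `X` if and only if it is
convex; the nef real combinations form the cone which is spanned by finitely many base point free
integral combinations; and every nef integral combination which is the pullback of a toric divisor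
with integral local equations is base point free. -/
theorem result (n p : ℕ) (hn : 1 ≤ n) (K : Type) [Field K] [Algebra ℂ K] (x : Fin (n + 1) → K)
    (hx0 : x 0 ≠ 0) (hbas : IsTranscendenceBasis ℂ (affine x))
    (hfin : FiniteDimensional (IntermediateField.adjoin ℂ (Set.range (affine x))) K)
    (fan : Finset (Finset (Fin (n + 1) → ℕ))) (hfan : IsFan fan)
    (c : Fin p → (Fin (n + 1) → ℕ) → ℚ) (β : Fin p → ℤ)
    (u : Finset (Fin (n + 1) → ℕ) → Fin p → Fin (n + 1) → ℚ)
    (hlin : ∀ σ ∈ fan, ∀ i v, (∃ k, v k = 0) → InCone σ v → c i v = ∑ k, u σ i k * v k)
    (δ : Fin p → Place ℂ K → ℚ) (hδ : ∀ i P, δ i P = coefficient x (c i) (β i) P) :
    (∃ k : ℕ, 1 ≤ k ∧ ∀ δ' : Fin p → Place ℂ K → ℚ, IsSmallModification n δ δ' →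
      ∀ ν : Fin p → ℤ, IsNef n δ' (fun i => (ν i : ℝ)) → BasePointFree n δ' (k • ν)) ∧
    ((∀ σ ∈ fan, IsFull σ) →
      (∀ w : Fin p → ℝ, IsNefUpTo n δ w ↔ IsConvex fan c β w) ∧
      (∃ (B : ℕ) (h : Fin B → Fin p → ℤ), (∀ b, BasePointFree n δ (h b)) ∧
        {w | IsNefUpTo n δ w} = coneOf h) ∧
      ∀ μ : Fin p → ℤ, IsNefUpTo n δ (fun i => (μ i : ℝ)) → IsCartier fan c β μ →
        BasePointFree n δ μ) :=
  ⟨uniform_main (cox_fv n p hn K x hx0 hbas hfin fan hfan c β u hlin δ hδ),
    fun hfull => eff_nef hn hx0 hbas hfin hfan (u := u) hlin hfull hδ
      (cox_fv_ext n p hn K x hx0 hbas hfin fan hfan c β u hlin δ hδ)⟩

end Pool.Agent.Results.MP_5ee2d0_ag.FiniteCoverFreeness
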