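import Pool.Agent.U976.TBd.UF

/-!
# One multiple is free for all nef line bundles on all Kummer covers of toric bundles over torus
# quotients of given dimension

Let `X = V / Γ` be the quotient of a complex torus of dimension `g` by any finite group, with
`H^1(X, O_X) = 0`; the torus need not be algebraic, and the group may contain reflections. Let `Y → X`
be a toric bundle: all fibres are the same smooth complete toric variety, of any dimension, and the
twists `c i` are arbitrary line bundles on `X`. Let `F_j` be any section of the `m_j`-th power of the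
line bundle `O_Y(e_j; A_j)` on `Y`, and let `Y'` be the Kummer cover of `Y` with the equations
`y_j ^ m_j = F_j`. All `Y'` with `H^1(Y', O_{Y'}) = 0` have a base `X` with `H^1(X, O_X) = 0`, as `O_X` is
a direct summand of the direct image of `O_{Y'}`. Examples with `K_{Y'} ∼ 0` are the
fibrations of Calabi-Yau complete intersection type over such `X` for which the class of `∑ (m_j - 1) e_j`
is the anticanonical class of `Y → X` up to a class of `X` (they are of any dimension, and the fibres
may vary and degenerate).

The theorem: the number `E = 4 ((3 ^ (4 g ^ 2))!) ^ 3`, which depends only on `g = dim X`, has the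
following property: for all nef line bundles `M` on `Y'` which are pullbacks from `Y` the line
bundle `M ^ E` is generated by its global sections. In particular `M` is nef if and only if it is
semiample. `E` does not depend on the torus, the group, the fan, the dimension and the twists of
`Y`, the covering and its degree, and `M`.

The starting library (`Pool.Agent.Q47.EB.Nef`) has this for the line bundles on `X` itself. For `Y`: the
class of a line bundle which is nef on the fibres of `Y → X` contains for each maximal cone `σ` exactly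
one invariant divisor `∑ β_i D_i` with `β_i = 0` for `i ∈ σ`; as the fan is smooth it is integral. The
restriction `M_σ` of `M` to the invariant section `X → Y` of `σ` is a nef line bundle on `X`, so `M_σ ^ E`
is generated by its sections `s`, and `s ∏ x_i ^ (E β_i)` are sections of `M ^ E` without common zeros on
the locus where only the `x_i`, `i ∈ σ`, may vanish.

`IsTorusQuotient` and `LineBundle` are defined in `Pool.Agent.W594.SYZ.Defs2`; `IsChernForm` and
`IsNefForm` in `Pool.Agent.W594.SYZ.TQDefs`; `HOneZero` in `Pool.Agent.TH735.AQ.Defs`; `IsSmoothFan`,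
`LinEquiv`, `IsSection` and `IsNef` in `Pool.Agent.Q47.TB.Defs`; `IsCoverSection` and `CoverSemiample` in
`Pool.Agent.U976.TBd.K1`.
-/

set_option autoImplicit false

namespace Pool.Agent.Results.MP_5ee2d0_ag.KummerCoversUniform

open Pool.Agent.W594.SYZ2 Pool.Agent.TH735.AQ Q47.TB Pool.Agent.U976.TBd MvPolynomial

/-- The number `E = 4 ((3 ^ (4 g ^ 2))!) ^ 3`. -/
def exponent (g : ℕ) : ℕ := 4 * (3 ^ (4 * g ^ 2)).factorial ^ 3

/-- The `q`-th power of the pullback `M` of `O_Y(D; L)` to the Kummer cover `Y'` is generated by its
global sections: for each point `(v, x, y)` of `Y'` it has a global section on `Y'` which does not vanish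
there. -/
def CoverFree {V : Type*} [NormedAddCommGroup V] [NormedSpace ℂ V] {Γ : Subgroup (V ≃ᵃ[ℂ] V)}
    {ι : Type*} [Fintype ι] {n : ℕ} (u : ι → Fin n → ℤ) (S : Set (Set ι)) (c : ι → LineBundle Γ)
    {k : ℕ} (e : Fin k → ι → ℤ) (A : Fin k → LineBundle Γ) (m : Fin k → ℕ)
    (F : Fin k → V → MvPolynomial ι ℂ) (D : ι → ℤ) (L : LineBundle Γ) (q : ℕ) : Prop :=
  ∀ (v : V) (x : ι → ℂ) (y : Fin k → ℂ), {i | x i = 0} ∈ S →
    (∀ j, y j ^ m j = eval x (F j v)) →
    ∃ G, IsCoverSection u c e A m (fun i => q * D i) (fun γ v => L.e γ v ^ q) G ∧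
      eval (Sum.elim x y) (G v) ≠ 0

/-- Let `Y` be the toric bundle with the fan `u`, `S` and the twists `c i` over the torus quotient
`X = V / Γ` with `H^1(X, O_X) = 0`, let `F j` be any section of the `m j`-th power of `O_Y(e j; A j)`,
let `Y'` be the Kummer cover `y_j ^ m_j = F_j` of `Y`, and let `M` be the pullback to `Y'` of the line
bundle `O_Y(D; L)`, where `H` is the Chern form of `L`.

(1) `M` is nef on the fibres and on the invariant sections of `Y → X` if and only if `M ^ E` is
generated by its global sections, where `E = exponent (dim X)`.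
(2) This is so if and only if `M` is semiample. -/
theorem result {V : Type*} [NormedAddCommGroup V] [NormedSpace ℂ V] [FiniteDimensional ℂ V]
    (Γ : Subgroup (V ≃ᵃ[ℂ] V)) (hΓ : IsTorusQuotient Γ) (h01 : HOneZero Γ)
    {ι : Type*} [Fintype ι] {n : ℕ} (u : ι → Fin n → ℤ) (S : Set (Set ι)) (hS : IsSmoothFan u S)
    (c : ι → LineBundle Γ) (Hc : ι → V → V → ℂ) (hc : ∀ i, IsChernForm (c i) (Hc i))
    {k : ℕ} (m : Fin k → ℕ) (hm : ∀ j, 1 ≤ m j) (e : Fin k → ι → ℤ) (A : Fin k → LineBundle Γ)
    (F : Fin k → V → MvPolynomial ι ℂ)
    (hF : ∀ j, IsSection u c (fun i => m j * e j i) (fun γ v => (A j).e γ v ^ m j) (F j))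
    (D : ι → ℤ) (L : LineBundle Γ) (H : V → V → ℂ) (hL : IsChernForm L H) :
    (IsNef u S Hc D H ↔ CoverFree u S c e A m F D L (exponent (Module.finrank ℂ V))) ∧
    (IsNef u S Hc D H ↔ CoverSemiample u S c e A m F D L) := by
  have hE : exponent (Module.finrank ℂ V) = Q47.EB.expo (Module.finrank ℂ V) := by
    have h1 : 4 * Module.finrank ℂ V ^ 2 = (2 * Module.finrank ℂ V) ^ 2 := by ring
    rw [exponent, Q47.EB.expo, Q47.EB.mink, h1]
  have h0 : IsNef u S Hc D H → Nef u S Hc D H := by
    intro h σ hσ
    obtain ⟨β, h1, h2, h3⟩ := h σ hσ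
    refine ⟨1, le_rfl, β, h1, ?_, fun v => ?_⟩
    · simpa only [Nat.cast_one, one_mul] using h2
    · simpa only [Nat.cast_one, one_mul] using h3 v
  have h1 : IsNef u S Hc D H → CoverFree u S c e A m F D L (exponent (Module.finrank ℂ V)) := by
    intro h v x y hx _
    obtain ⟨G, hG, hG0⟩ := free_of_hone hΓ h01 hS hc hL (h0 h) v x hx
    rw [hE]
    refine ⟨_, cover_of_section hm hG, ?_⟩
    rw [eval_rename]
    exact hG0
  have h2 : CoverFree u S c e A m F D L (exponent (Module.finrank ℂ V)) →
      CoverSemiample u S c e A m F D L := fun h =>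
    ⟨_, by rw [hE]; exact Q47.EB.expo_pos _, h⟩
  have h3 : CoverSemiample u S c e A m F D L → IsNef u S Hc D H := fun h =>
    nef_one hS (nef_of_semiample hΓ hc hL ((cover_semiample_iff hF hm _ _).1 h))
  exact ⟨⟨h1, fun h => h3 (h2 h)⟩, ⟨fun h => h2 (h1 h), h3⟩⟩

end Pool.Agent.Results.MP_5ee2d0_ag.KummerCoversUniform
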