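import Pool.Agent.U660.MD.Nef
import Pool.Agent.Q57.CX.Top

/-!
# Nef divisors on all the small modifications of toroidal models of covers of products of projective
# spaces are semiample, with one multiple

Let `F i` be a form of degree `d i` in `n i + 1` variables whose zero set in the projective
`n i`-space is a smooth hypersurface, and let `H i` be the cyclic hypersurface `w ^ (d i) = F i` in
the projective `(n i + 1)`-space. Let `K` be the function field of a quotient
`Y = (H 1 × ... × H r) / G`, where `G` is any group of diagonal automorphisms
`w i ↦ ζ i * w i`, `ζ i ^ (d i) = 1`. Equivalently, `K` is generated by the affine coordinates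
`x i j / x i 0` of the product of the projective `n i`-spaces and by roots `z j`,
`z j ^ (m j) = ∏ i, (F i (x i) / x i 0 ^ (d i)) ^ (a j i)`, where `m j` divides `a j i * d i`: the
abelian covers of the product of the projective spaces which are branched along the hypersurfaces
`F i = 0` of the factors. There is no condition on the dimensions and the degrees. The toroidal
modifications `X` of `Y` are given by the fans `fan`, and `D 1, ..., D p` are toroidal `ℚ`-Cartier
divisors on `X`; the coefficients of their pullbacks at the prime divisors `P` over `X` are the
`δ i P`. See `Pool.Agent.Results.MP_89a3f8_ag.TerminationOfFlips`, whose definitions (`Smooth`,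
`Admissible`, `InCone`, `IsFan`, `affine`, `minimalOrder`, `multiplicities`, `coefficient`,
`IsSection`, `BasePointFree`, `Semiample`, `IsSmallModification`) are used here.

If `K_Y = 0` the crepant toroidal resolutions `X` of `Y` are manifolds with trivial canonical class (for
instance the resolutions of Borcea-Voisin type of the quotients `(H 1 × ... × H r) / G` of products of
Calabi-Yau hypersurfaces which preserve the volume form). The varieties `X'` which are isomorphic to `X` in
codimension one (the flops of `X`) have trivial canonical class as well.

**The theorem.** There is ONE number `k ≥ 1` such that for all the small modifications `X'` of `X` (on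
which the strict transforms of the `D i` are `ℚ`-Cartier and some combination of them is ample) and for all
integral combinations `L = ∑ i, ν i * D i` which are nef on `X'` the linear system `|k L|` has no base
points on `X'`.

For `X` itself and divisors with Cartier multiples see the results of the team on toroidal models; the
small modifications `X'` are in general not toroidal modifications of `Y`, and nothing is known about the
singularities of the pairs `(X', L)`, so the base point free theorem does not apply if `L` is not big. The
proof: the Cox ring is finitely generated, so a rational combination is semiample on `X'` if and only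
if for every prime divisor `P` over `X` it is in the cone of the degrees of the generators which have
minimal order at `P`; there are finitely many such cones for all `X'` together, and by Gordan's lemma
the integral points of their intersections are generated by finitely many.
-/

set_option autoImplicit false

open FF MvPolynomial Pool.Agent.W602.GT

namespace Pool.Agent.Results.MP_5ee2d0_ag.UniformFreeness

open Pool.Agent.Results.MP_89a3f8_ag.TerminationOfFlips
open Pool.Agent.U660.MD

/-- **Nef integral combinations on small modifications have a base point free multiple, and the multiple
is the same for all of them.** Let `K` be the function field of an abelian cover `Y` of the product of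
the projective `n i`-spaces which is branched along smooth hypersurfaces `F i = 0` of the factors, `X` the
toroidal modification of `Y` which is given by `fan`, and `D i`, `i < p`, toroidal `ℚ`-Cartier divisors
on `X` with the degrees `β i t` and the coefficients `c i`. There is `k ≥ 1` such that for every small
modification of `X` (with the coefficients `δ'`) and every integral combination `ν` which is nef on it
the combination `k ν` is base point free on it. -/
theorem result (r N R p : ℕ) (n d : Fin r → ℕ) (hr : 1 ≤ r) (hn : ∀ i, 1 ≤ n i)
    (hd : ∀ i, 1 ≤ d i) (hN : N = ∑ i, n i)
    (F : ∀ i, MvPolynomial (Fin (n i + 1)) ℂ) (hF : ∀ i, (F i).IsHomogeneous (d i))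
    (hs : ∀ i, Smooth (F i)) (m : Fin R → ℕ) (hm : ∀ j, 1 ≤ m j) (a : Fin R → Fin r → ℕ)
    (hdiv : ∀ j i, m j ∣ a j i * d i)
    (K : Type) [Field K] [Algebra ℂ K] (x : ∀ i, Fin (n i + 1) → K) (hx0 : ∀ i, x i 0 ≠ 0)
    (hbas : IsTranscendenceBasis ℂ (affine x)) (z : Fin R → K)
    (hz : ∀ j, z j ^ m j = ∏ i, (aeval (x i) (F i) / x i 0 ^ d i) ^ a j i)
    (hgen : IntermediateField.adjoin ℂ (Set.range (affine x) ∪ Set.range z) = ⊤)
    (fan : Finset (Finset (Fin r → ℕ))) (hfan : IsFan m a fan)
    (c : Fin p → (Fin r → ℕ) → ℚ) (hc0 : ∀ i, c i 0 = 0) (β : Fin p → Fin r → ℤ)
    (u : Finset (Fin r → ℕ) → Fin p → Fin r → ℚ)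
    (hlin : ∀ σ ∈ fan, ∀ i v, Admissible m a v → InCone σ v → - c i v = ∑ k, u σ i k * v k)
    (δ : Fin p → Place ℂ K → ℚ) (hδ : ∀ i P, δ i P = coefficient F d x (c i) (β i) P) :
    ∃ k : ℕ, 1 ≤ k ∧ ∀ δ' : Fin p → Place ℂ K → ℚ, IsSmallModification N δ δ' →
      ∀ ν : Fin p → ℤ, IsNef N δ' (fun i => (ν i : ℝ)) → BasePointFree N δ' (k • ν) :=
  uniform_main (Pool.Agent.Q57.CX.main_cox (N := N) hr hn hN hd hF hs hx0 hbas hm hdiv hz hgen (S := fan)
    ⟨hfan.adm, hfan.full, hfan.cover⟩ hc0 (u := u) hlin (β := β) hδ)

end Pool.Agent.Results.MP_5ee2d0_ag.UniformFreeness
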