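import Pool.Agent.U201.NS.Main

/-!
# Uniform freeness of nef sheaves on quotients `(A × F) / G`

Let `F` be a normal projective variety, `ℚ`-factorial with free class group `Cl(F) = ℤ^ρ`, with ample
class `u`; the Cox ring `R = ⨁ 𝒜 β` need not be finitely generated. Let `A = V / Λ` be an abelian
variety, and `X = (A × F) / G = (V × F) / Γ`, where the finite group `G` acts diagonally and perhaps
not freely. By the decomposition theorem of Beauville and Bogomolov every projective manifold `X` with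
`c_1(X) = 0` is such a quotient, with `F` simply connected and `K_F = 0`.

**Theorem.** One power of all nef sheaves on `X` is generated by global sections if and only if
`H^1(X, O_X) = 0` and the same is true for the nef classes of `F` which are invariant under `G`. If
`O_F(m β)` is generated by global sections for all invariant nef classes `β`, then the power
`4 m a^6 b^3` of all nef sheaves on `X` is generated by global sections; here `a` is the number of the
linear parts of the elements of `Γ`, and `b` the number of the automorphisms of `F`.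
-/

set_option autoImplicit false

namespace Pool.Agent.Results.MP_5ee2d0_ag.UniformQuotients

open Pool.Agent.X324.CF Pool.Agent.U201.EC Pool.Agent.U201.NS Pool.Agent.TH735.AQ
open Pool.Agent.Y167 (Rel)

theorem result {V R : Type*} [NormedAddCommGroup V] [NormedSpace ℂ V] [FiniteDimensional ℂ V]
    [CommRing R] [IsDomain R] [Algebra ℂ R] {ρ : ℕ} {𝒜 : Cl ρ → Submodule ℂ R} [GradedAlgebra 𝒜]
    {u : Cl ρ} (F : IsProj 𝒜 u) {Γ : Grp V R} (hΓ : IsQuotient 𝒜 u Γ) {H₀ : V → V → ℂ}
    (hA : Rel (base Γ) (LinearMap.id : V →ₗ[ℂ] V) H₀) :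
    ((∃ k : ℕ, 0 < k ∧ ∀ 𝓛 : Sheaf 𝒜 Γ, IsNef (LinearMap.id : V →ₗ[ℂ] V) u 𝓛 → IsGen u 𝓛 k) ↔
      HOneZero (base Γ) ∧ ∃ m : ℕ, 0 < m ∧
        ∀ β, Inv 𝒜 Γ β → rv β ∈ NefF 𝒜 u → GenF 𝒜 u (m • β)) ∧
    (HOneZero (base Γ) → ∀ m : ℕ, (∀ β, Inv 𝒜 Γ β → rv β ∈ NefF 𝒜 u → GenF 𝒜 u (m • β)) →
      ∀ 𝓛 : Sheaf 𝒜 Γ, IsNef (LinearMap.id : V →ₗ[ℂ] V) u 𝓛 →
        IsGen u 𝓛 (4 * numLin Γ ^ 6 * numAut Γ ^ 3 * m)) :=
  ⟨unif_all F hΓ hA, fun h01 _ hm _ hn => gen_unif F hΓ hA h01 hm hn⟩

end Pool.Agent.Results.MP_5ee2d0_ag.UniformQuotients
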